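import Mathlib
import Pool.Agent.Helper342.Imm.Small

/-!
Holomorphic immersions of the affine cubic hypersurfaces `w³ + w g + f = 1` into `ℂⁿ`:
all `(g, f)` when `n ≤ 2`; and, for every `n`, all `(g, f)` whose cubic form has a singular
point `p ≠ 0` or a point `p ≠ 0` whose polar quadric is the square of a linear form
(for example `g = 0`, with `p = (0, 1)`).
-/

set_option autoImplicit false

namespace Pool.Agent.Results.MP_f0185d_an.LowDimOrDegenerate

theorem result :
    ∀ n : ℕ, ∀ g f : MvPolynomial (Fin n) ℂ, g.IsHomogeneous 2 → f.IsHomogeneous 3 →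
      (n ≤ 2 ∨
        (∃ p : (Fin n → ℂ) × ℂ, p ≠ 0 ∧
          fderiv ℂ (fun y : (Fin n → ℂ) × ℂ =>
            y.2 ^ 3 + y.2 * MvPolynomial.eval y.1 g + MvPolynomial.eval y.1 f) p = 0) ∨
        (∃ p : (Fin n → ℂ) × ℂ, p ≠ 0 ∧ ∃ l : ((Fin n → ℂ) × ℂ) →L[ℂ] ℂ,
          ∀ z : (Fin n → ℂ) × ℂ,
            fderiv ℂ (fun y : (Fin n → ℂ) × ℂ =>
              y.2 ^ 3 + y.2 * MvPolynomial.eval y.1 g + MvPolynomial.eval y.1 f) z p
            = l z ^ 2)) →
      ∃ F : (Fin n → ℂ) × ℂ → (Fin n → ℂ), Differentiable ℂ F ∧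
        ∀ z : (Fin n → ℂ) × ℂ,
          z.2 ^ 3 + z.2 * MvPolynomial.eval z.1 g + MvPolynomial.eval z.1 f = 1 →
          ∀ v : (Fin n → ℂ) × ℂ,
            fderiv ℂ (fun y : (Fin n → ℂ) × ℂ =>
              y.2 ^ 3 + y.2 * MvPolynomial.eval y.1 g + MvPolynomial.eval y.1 f) z v = 0 →
            fderiv ℂ F z v = 0 → v = 0 := by
  intro n g f hg hf h
  have key : Helper342.Imm.HasImm n (Helper342.Imm.cf n g f) := by
    rcases h with h | ⟨p, hp, h⟩ | ⟨p, hp, l, h⟩
    · interval_cases n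
      · exact Helper342.Imm.imm_zero hg hf
      · exact Helper342.Imm.imm_one hg hf
      · exact Helper342.Imm.imm_two hg hf
    · exact Helper342.Imm.imm_sing (Helper342.Imm.finrank_E n) _
        (Helper342.Imm.cf_isCubic hg hf) p hp h
    · exact Helper342.Imm.imm_cyc (Helper342.Imm.finrank_E n) _
        (Helper342.Imm.cf_isCubic hg hf) p hp l h
  exact key

end Pool.Agent.Results.MP_f0185d_an.LowDimOrDegenerate
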